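import Pool.Agent.Helper89.TQ.Ctx

set_option autoImplicit false
set_option linter.all false
set_option maxHeartbeats 4000000

namespace Pool.Agent.Helper9.TQ

open Pool.Agent.Helper89.TQ

theorem c0_13_22_33_k2 {n1 n2 n3 A1 A2 A3 B1 B2 B3 m11_1 m11_2 m11_3 m13_1 m13_2 m13_3 m22_1 m22_2 m22_3 m23_1 m23_2 m23_3 m33_1 m33_2 m33_3 : ℤ}
    (C : Ctx0 n1 n2 n3 A1 A2 A3 B1 B2 B3 m11_1 m11_2 m11_3 m13_1 m13_2 m13_3 m22_1 m22_2 m22_3 m23_1 m23_2 m23_3 m33_1 m33_2 m33_3)
    (e0 : 0 < A1)
    (e1 : 0 < B3)
    (e2 : 0 < B2)
    (e3 : 0 < A3)
    (s1 : 2 * A1 + 1 * B1 ≤ m13_1 + m22_1 + m33_1)
    (s2 : 2 * A2 + 1 * B2 ≤ m13_2 + m22_2 + m33_2)
    (s3 : 2 * A3 + 1 * B3 ≤ m13_3 + m22_3 + m33_3) : False := by
  have dh15 : ((-1) * A1 + 1 ≤ 0 ∧ 1 * A2 + (-1) * A1 + (-1) * n2 + 1 ≤ 0) ∨ ((-1) * B1 + 1 ≤ 0 ∧ 1 * B2 + (-1) * B1 + (-1) * n2 + 1 ≤ 0) := by
    have t := C.t12
    clear C
    omega
  have dh16 : (1 * A1 + (-1) * A2 + 1 ≤ 0 ∧ 1 * A3 + (-1) * A2 + (-1) * n3 + 1 ≤ 0) ∨ (1 * B1 + (-1) * B2 + 1 ≤ 0 ∧ 1 * B3 + (-1) * B2 + (-1) * n3 + 1 ≤ 0) := by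
    have t := C.t23
    clear C
    omega
  have dh19 : 1 * m13_1 + (-1) * A1 + 1 = 0 ∨ 1 * m13_1 + (-1) * B3 + 1 = 0 := by
    have t := C.f13_2
    clear C
    omega
  have dh22 : 1 * m13_2 + (-1) * m13_1 + (-1) * n2 + 0 = 0 ∨ 1 * m13_2 + (-1) * B3 + 1 = 0 := by
    have t := C.f13_5
    clear C
    omega
  have dh25 : 1 * m13_3 + (-1) * m13_2 + (-1) * n3 + 0 = 0 ∨ 1 * m13_3 + (-1) * B3 + 1 = 0 := by
    have t := C.f13_8
    clear C
    omega
  have dh28 : 1 * m22_1 + (-1) * n1 + 0 = 0 ∨ 1 * m22_1 + (-1) * B2 + 1 = 0 := by
    have t := C.f22_2
    clear C
    omega
  have dh31 : 1 * m22_2 + (-1) * m22_1 + (-1) * n2 + 0 = 0 ∨ 1 * m22_2 + (-1) * B2 + 1 = 0 := by
    have t := C.f22_5
    clear C
    omega
  have dh35 : 1 * m33_1 + (-1) * n1 + 0 = 0 ∨ 1 * m33_1 + (-1) * A3 + 1 = 0 := by
    have t := C.f33_2
    clear C
    omega
  have dh38 : 1 * m33_2 + (-1) * m33_1 + (-1) * n2 + 0 = 0 ∨ 1 * m33_2 + (-1) * A3 + 1 = 0 := by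
    have t := C.f33_5
    clear C
    omega
  have dh41 : 1 * m33_3 + (-1) * m33_2 + (-1) * n3 + 0 = 0 ∨ 1 * m33_3 + (-1) * A3 + 1 = 0 := by
    have t := C.f33_8
    clear C
    omega
  have dh42 : 1 * A1 + 0 ≤ 0 ∨ 1 * B3 + 0 ≤ 0 ∨ 1 * B2 + 0 ≤ 0 ∨ (-2) * B1 + 1 * m13_1 + 1 * m22_1 + 1 ≤ 0 ∨ (-2) * B2 + 1 * m13_2 + 1 * m22_2 + 1 ≤ 0 ∨ (-2) * B3 + 1 * m13_3 + 1 * m22_3 + 1 ≤ 0 := by
    have t := C.p13_22B
    clear C
    omega
  have dh43 : 1 * A1 + 0 ≤ 0 ∨ 1 * B3 + 0 ≤ 0 ∨ 1 * A3 + 0 ≤ 0 ∨ (-2) * A1 + 1 * m13_1 + 1 * m33_1 + 1 ≤ 0 ∨ (-2) * A2 + 1 * m13_2 + 1 * m33_2 + 1 ≤ 0 ∨ (-2) * A3 + 1 * m13_3 + 1 * m33_3 + 1 ≤ 0 := by
    have t := C.p13_33A
    clear C
    omega
  have dh44 : 1 * A1 + 0 ≤ 0 ∨ (-1) * A2 + 1 * A1 + 1 * n2 + (-1) ≤ 0 ∨ (-1) * B1 + 1 * n1 + 0 ≤ 0 ∨ (-1) * B1 + 1 * B2 + (-1) ≤ 0 ∨ (-1) * A3 + 1 * B3 + (-1) ≤ 0 := by
    have t := C.tpmm
    clear C
    omega
  have dh45 : 1 * B2 + 0 ≤ 0 ∨ 1 * A3 + 0 ≤ 0 ∨ (-2) * A1 + 1 * m22_1 + 1 * m33_1 + 1 ≤ 0 ∨ (-2) * A2 + 1 * m22_2 + 1 * m33_2 + 1 ≤ 0 ∨ (-2) * A3 + 1 * m22_3 + 1 * m33_3 + 1 ≤ 0 := by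
    have t := C.p22_33A
    clear C
    omega
  have dh46 : (-1) * A1 + 1 * n1 + 0 ≤ 0 ∨ (-1) * A1 + 1 * A2 + 0 ≤ 0 ∨ (-1) * A2 + 1 * A3 + 0 ≤ 0 ∨ 1 * B1 + 0 ≤ 0 ∨ (-1) * B2 + 1 * B1 + 1 * n2 + 0 ≤ 0 ∨ (-1) * B3 + 1 * B2 + 1 * n3 + 0 ≤ 0 := by
    have t := C.tmzp
    clear C
    omega
  have dh47 : 1 * A1 + 0 ≤ 0 ∨ (-1) * A2 + 1 * A1 + 1 * n2 + 0 ≤ 0 ∨ (-1) * A3 + 1 * A2 + 1 * n3 + 0 ≤ 0 ∨ (-1) * B1 + 1 * n1 + 0 ≤ 0 ∨ (-1) * B1 + 1 * B2 + 0 ≤ 0 ∨ (-1) * B2 + 1 * B3 + 0 ≤ 0 ∨ (-1) * A3 + 1 * B3 + (-1) ≤ 0 ∨ ((-1) * B1 + 1 * A1 + (-1) ≤ 0 ∧ (-1) * B2 + 1 * A2 + 0 ≤ 0) := by
    have t := C.tpzm
    clear C
    omega
  have h0 := C.a0
  have h1 := C.a1
  have h2 := C.a2
  have h3 := C.a3
  have h4 := C.a4
  have h5 := C.a5
  have h6 := C.b0
  have h7 := C.b1
  have h8 := C.b2
  have h9 := C.b3
  have h10 := C.b4
  have h11 := C.b5
  have h12 := C.o0
  have h13 := C.o1
  have h14 := C.o2
  have h17 := C.f13_0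
  have h18 := C.f13_1
  have h20 := C.f13_3
  have h21 := C.f13_4
  have h23 := C.f13_6
  have h24 := C.f13_7
  have h26 := C.f22_0
  have h27 := C.f22_1
  have h29 := C.f22_3
  have h30 := C.f22_4
  have h32 := C.f22_6
  have h33 := C.f33_0
  have h34 := C.f33_1
  have h36 := C.f33_3
  have h37 := C.f33_4
  have h39 := C.f33_6
  have h40 := C.f33_7
  clear C
  rcases dh19 with ch19 | ch19
  · skip
    rcases dh15 with ch15 | ch15
    · skip
      rcases dh16 with ch16 | ch16
      · skip
        rcases dh22 with ch22 | ch22
        · skip
          rcases dh25 with ch25 | ch25
          · omega
          · skip
            rcases dh28 with ch28 | ch28
            · skip
              rcases dh31 with ch31 | ch31
              · omega
              · skip
                rcases dh35 with ch35 | ch35
                · skip
                  rcases dh45 with ch45 | ch45 | ch45 | ch45 | ch45
                  · omega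
                  · omega
                  · omega
                  · skip
                    rcases dh42 with ch42 | ch42 | ch42 | ch42 | ch42 | ch42
                    · omega
                    · omega
                    · omega
                    · omega
                    · omega
                    · skip
                      rcases dh43 with ch43 | ch43 | ch43 | ch43 | ch43 | ch43
                      · omega
                      · omega
                      · omega
                      · skip
                        rcases dh44 with ch44 | ch44 | ch44 | ch44 | ch44
                        · omega
                        · skip
                          rcases dh41 with ch41 | ch41
                          · omega
                          · skip
                            rcases dh47 with ch47 | ch47 | ch47 | ch47 | ch47 | ch47 | ch47 | ch47
                            · omega
                            · omega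
                            · omega
                            · omega
                            · omega
                            · omega
                            · omega
                            · omega
                        · omega
                        · omega
                        · omega
                      · omega
                      · omega
                  · omega
                · skip
                  rcases dh38 with ch38 | ch38
                  · omega
                  · skip
                    rcases dh41 with ch41 | ch41
                    · omega
                    · skip
                      rcases dh42 with ch42 | ch42 | ch42 | ch42 | ch42 | ch42
                      · omega
                      · omega
                      · omega
                      · omega
                      · omega
                      · skip
                        rcases dh43 with ch43 | ch43 | ch43 | ch43 | ch43 | ch43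
                        · omega
                        · omega
                        · omega
                        · skip
                          rcases dh44 with ch44 | ch44 | ch44 | ch44 | ch44
                          · omega
                          · omega
                          · omega
                          · omega
                          · omega
                        · omega
                        · omega
            · skip
              rcases dh31 with ch31 | ch31
              · omega
              · skip
                rcases dh35 with ch35 | ch35
                · skip
                  rcases dh38 with ch38 | ch38
                  · skip
                    rcases dh41 with ch41 | ch41
                    · omega
                    · skip
                      rcases dh43 with ch43 | ch43 | ch43 | ch43 | ch43 | ch43
                      · omega
                      · omega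
                      · omega
                      · skip
                        rcases dh42 with ch42 | ch42 | ch42 | ch42 | ch42 | ch42
                        · omega
                        · omega
                        · omega
                        · omega
                        · skip
                          rcases dh45 with ch45 | ch45 | ch45 | ch45 | ch45
                          · omega
                          · omega
                          · omega
                          · omega
                          · omega
                        · skip
                          rcases dh44 with ch44 | ch44 | ch44 | ch44 | ch44
                          · omega
                          · skip
                            rcases dh47 with ch47 | ch47 | ch47 | ch47 | ch47 | ch47 | ch47 | ch47
                            · omega
                            · omega
                            · omega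
                            · omega
                            · omega
                            · omega
                            · omega
                            · skip
                              rcases dh45 with ch45 | ch45 | ch45 | ch45 | ch45
                              · omega
                              · omega
                              · omega
                              · omega
                              · omega
                          · omega
                          · omega
                          · omega
                      · omega
                      · skip
                        rcases dh42 with ch42 | ch42 | ch42 | ch42 | ch42 | ch42
                        · omega
                        · omega
                        · omega
                        · skip
                          rcases dh45 with ch45 | ch45 | ch45 | ch45 | ch45
                          · omega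
                          · omega
                          · omega
                          · skip
                            rcases dh46 with ch46 | ch46 | ch46 | ch46 | ch46 | ch46
                            · omega
                            · omega
                            · omega
                            · omega
                            · omega
                            · omega
                          · omega
                        · skip
                          rcases dh45 with ch45 | ch45 | ch45 | ch45 | ch45
                          · omega
                          · omega
                          · omega
                          · omega
                          · omega
                        · omega
                  · skip
                    rcases dh41 with ch41 | ch41
                    · omega
                    · skip
                      rcases dh43 with ch43 | ch43 | ch43 | ch43 | ch43 | ch43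
                      · omega
                      · omega
                      · omega
                      · skip
                        rcases dh42 with ch42 | ch42 | ch42 | ch42 | ch42 | ch42
                        · omega
                        · omega
                        · omega
                        · omega
                        · skip
                          rcases dh45 with ch45 | ch45 | ch45 | ch45 | ch45
                          · omega
                          · omega
                          · omega
                          · omega
                          · omega
                        · skip
                          rcases dh44 with ch44 | ch44 | ch44 | ch44 | ch44
                          · omega
                          · skip
                            rcases dh47 with ch47 | ch47 | ch47 | ch47 | ch47 | ch47 | ch47 | ch47
                            · omega
                            · omega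
                            · omega
                            · omega
                            · omega
                            · omega
                            · omega
                            · skip
                              rcases dh45 with ch45 | ch45 | ch45 | ch45 | ch45
                              · omega
                              · omega
                              · omega
                              · omega
                              · omega
                          · omega
                          · omega
                          · omega
                      · omega
                      · skip
                        rcases dh42 with ch42 | ch42 | ch42 | ch42 | ch42 | ch42
                        · omega
                        · omega
                        · omega
                        · skip
                          rcases dh45 with ch45 | ch45 | ch45 | ch45 | ch45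
                          · omega
                          · omega
                          · omega
                          · skip
                            rcases dh46 with ch46 | ch46 | ch46 | ch46 | ch46 | ch46
                            · omega
                            · omega
                            · omega
                            · omega
                            · omega
                            · omega
                          · omega
                        · skip
                          rcases dh45 with ch45 | ch45 | ch45 | ch45 | ch45
                          · omega
                          · omega
                          · omega
                          · omega
                          · omega
                        · omega
                · skip
                  rcases dh38 with ch38 | ch38
                  · omega
                  · skip
                    rcases dh41 with ch41 | ch41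
                    · omega
                    · skip
                      rcases dh43 with ch43 | ch43 | ch43 | ch43 | ch43 | ch43
                      · omega
                      · omega
                      · omega
                      · skip
                        rcases dh42 with ch42 | ch42 | ch42 | ch42 | ch42 | ch42
                        · omega
                        · omega
                        · omega
                        · omega
                        · omega
                        · skip
                          rcases dh44 with ch44 | ch44 | ch44 | ch44 | ch44
                          · omega
                          · omega
                          · omega
                          · omega
                          · omega
                      · omega
                      · skip
                        rcases dh42 with ch42 | ch42 | ch42 | ch42 | ch42 | ch42
                        · omega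
                        · omega
                        · omega
                        · skip
                          rcases dh45 with ch45 | ch45 | ch45 | ch45 | ch45
                          · omega
                          · omega
                          · omega
                          · skip
                            rcases dh46 with ch46 | ch46 | ch46 | ch46 | ch46 | ch46
                            · omega
                            · omega
                            · omega
                            · omega
                            · omega
                            · omega
                          · omega
                        · skip
                          rcases dh45 with ch45 | ch45 | ch45 | ch45 | ch45
                          · omega
                          · omega
                          · omega
                          · omega
                          · omega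
                        · omega
        · skip
          rcases dh25 with ch25 | ch25
          · omega
          · skip
            rcases dh28 with ch28 | ch28
            · skip
              rcases dh31 with ch31 | ch31
              · omega
              · skip
                rcases dh42 with ch42 | ch42 | ch42 | ch42 | ch42 | ch42
                · omega
                · omega
                · omega
                · omega
                · omega
                · skip
                  rcases dh43 with ch43 | ch43 | ch43 | ch43 | ch43 | ch43
                  · omega
                  · omega
                  · omega
                  · skip
                    rcases dh44 with ch44 | ch44 | ch44 | ch44 | ch44
                    · omega
                    · omega
                    · omega
                    · omega
                    · omega
                  · omega
                  · omega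
            · skip
              rcases dh31 with ch31 | ch31
              · omega
              · skip
                rcases dh35 with ch35 | ch35
                · skip
                  rcases dh38 with ch38 | ch38
                  · omega
                  · skip
                    rcases dh41 with ch41 | ch41
                    · omega
                    · skip
                      rcases dh42 with ch42 | ch42 | ch42 | ch42 | ch42 | ch42
                      · omega
                      · omega
                      · omega
                      · skip
                        rcases dh43 with ch43 | ch43 | ch43 | ch43 | ch43 | ch43
                        · omega
                        · omega
                        · omega
                        · omega
                        · omega
                        · skip
                          rcases dh45 with ch45 | ch45 | ch45 | ch45 | ch45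
                          · omega
                          · omega
                          · omega
                          · skip
                            rcases dh46 with ch46 | ch46 | ch46 | ch46 | ch46 | ch46
                            · omega
                            · omega
                            · omega
                            · omega
                            · omega
                            · omega
                          · omega
                      · omega
                      · skip
                        rcases dh43 with ch43 | ch43 | ch43 | ch43 | ch43 | ch43
                        · omega
                        · omega
                        · omega
                        · skip
                          rcases dh44 with ch44 | ch44 | ch44 | ch44 | ch44
                          · omega
                          · omega
                          · omega
                          · omega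
                          · omega
                        · omega
                        · omega
                · skip
                  rcases dh38 with ch38 | ch38
                  · omega
                  · skip
                    rcases dh41 with ch41 | ch41
                    · omega
                    · skip
                      rcases dh42 with ch42 | ch42 | ch42 | ch42 | ch42 | ch42
                      · omega
                      · omega
                      · omega
                      · skip
                        rcases dh43 with ch43 | ch43 | ch43 | ch43 | ch43 | ch43
                        · omega
                        · omega
                        · omega
                        · omega
                        · omega
                        · skip
                          rcases dh45 with ch45 | ch45 | ch45 | ch45 | ch45
                          · omega
                          · omega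
                          · omega
                          · skip
                            rcases dh46 with ch46 | ch46 | ch46 | ch46 | ch46 | ch46
                            · omega
                            · omega
                            · omega
                            · omega
                            · omega
                            · omega
                          · omega
                      · omega
                      · skip
                        rcases dh43 with ch43 | ch43 | ch43 | ch43 | ch43 | ch43
                        · omega
                        · omega
                        · omega
                        · skip
                          rcases dh44 with ch44 | ch44 | ch44 | ch44 | ch44
                          · omega
                          · omega
                          · omega
                          · omega
                          · omega
                        · omega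
                        · omega
      · skip
        rcases dh22 with ch22 | ch22
        · skip
          rcases dh25 with ch25 | ch25
          · omega
          · skip
            rcases dh28 with ch28 | ch28
            · skip
              rcases dh31 with ch31 | ch31
              · omega
              · skip
                rcases dh35 with ch35 | ch35
                · skip
                  rcases dh45 with ch45 | ch45 | ch45 | ch45 | ch45
                  · omega
                  · omega
                  · omega
                  · skip
                    rcases dh42 with ch42 | ch42 | ch42 | ch42 | ch42 | ch42
                    · omega
                    · omega
                    · omega
                    · omega
                    · omega
                    · skip
                      rcases dh43 with ch43 | ch43 | ch43 | ch43 | ch43 | ch43
                      · omega
                      · omega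
                      · omega
                      · skip
                        rcases dh44 with ch44 | ch44 | ch44 | ch44 | ch44
                        · omega
                        · skip
                          rcases dh41 with ch41 | ch41
                          · omega
                          · skip
                            rcases dh47 with ch47 | ch47 | ch47 | ch47 | ch47 | ch47 | ch47 | ch47
                            · omega
                            · omega
                            · omega
                            · omega
                            · omega
                            · omega
                            · omega
                            · omega
                        · omega
                        · omega
                        · omega
                      · omega
                      · omega
                  · omega
                · skip
                  rcases dh38 with ch38 | ch38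
                  · omega
                  · skip
                    rcases dh41 with ch41 | ch41
                    · omega
                    · skip
                      rcases dh42 with ch42 | ch42 | ch42 | ch42 | ch42 | ch42
                      · omega
                      · omega
                      · omega
                      · omega
                      · omega
                      · skip
                        rcases dh43 with ch43 | ch43 | ch43 | ch43 | ch43 | ch43
                        · omega
                        · omega
                        · omega
                        · skip
                          rcases dh44 with ch44 | ch44 | ch44 | ch44 | ch44
                          · omega
                          · omega
                          · omega
                          · omega
                          · omega
                        · omega
                        · omega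
            · skip
              rcases dh31 with ch31 | ch31
              · omega
              · skip
                rcases dh35 with ch35 | ch35
                · skip
                  rcases dh38 with ch38 | ch38
                  · skip
                    rcases dh41 with ch41 | ch41
                    · omega
                    · skip
                      rcases dh42 with ch42 | ch42 | ch42 | ch42 | ch42 | ch42
                      · omega
                      · omega
                      · omega
                      · omega
                      · skip
                        rcases dh45 with ch45 | ch45 | ch45 | ch45 | ch45
                        · omega
                        · omega
                        · omega
                        · omega
                        · omega
                      · skip
                        rcases dh43 with ch43 | ch43 | ch43 | ch43 | ch43 | ch43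
                        · omega
                        · omega
                        · omega
                        · skip
                          rcases dh44 with ch44 | ch44 | ch44 | ch44 | ch44
                          · omega
                          · skip
                            rcases dh47 with ch47 | ch47 | ch47 | ch47 | ch47 | ch47 | ch47 | ch47
                            · omega
                            · omega
                            · omega
                            · omega
                            · omega
                            · omega
                            · omega
                            · skip
                              rcases dh45 with ch45 | ch45 | ch45 | ch45 | ch45
                              · omega
                              · omega
                              · omega
                              · omega
                              · omega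
                          · omega
                          · omega
                          · omega
                        · omega
                        · omega
                  · skip
                    rcases dh41 with ch41 | ch41
                    · omega
                    · skip
                      rcases dh42 with ch42 | ch42 | ch42 | ch42 | ch42 | ch42
                      · omega
                      · omega
                      · omega
                      · omega
                      · skip
                        rcases dh45 with ch45 | ch45 | ch45 | ch45 | ch45
                        · omega
                        · omega
                        · omega
                        · omega
                        · omega
                      · skip
                        rcases dh43 with ch43 | ch43 | ch43 | ch43 | ch43 | ch43
                        · omega
                        · omega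
                        · omega
                        · skip
                          rcases dh44 with ch44 | ch44 | ch44 | ch44 | ch44
                          · omega
                          · skip
                            rcases dh47 with ch47 | ch47 | ch47 | ch47 | ch47 | ch47 | ch47 | ch47
                            · omega
                            · omega
                            · omega
                            · omega
                            · omega
                            · omega
                            · omega
                            · skip
                              rcases dh45 with ch45 | ch45 | ch45 | ch45 | ch45
                              · omega
                              · omega
                              · omega
                              · omega
                              · omega
                          · omega
                          · omega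
                          · omega
                        · omega
                        · omega
                · skip
                  rcases dh38 with ch38 | ch38
                  · omega
                  · skip
                    rcases dh41 with ch41 | ch41
                    · omega
                    · skip
                      rcases dh42 with ch42 | ch42 | ch42 | ch42 | ch42 | ch42
                      · omega
                      · omega
                      · omega
                      · omega
                      · skip
                        rcases dh43 with ch43 | ch43 | ch43 | ch43 | ch43 | ch43
                        · omega
                        · omega
                        · omega
                        · omega
                        · omega
                        · skip
                          rcases dh45 with ch45 | ch45 | ch45 | ch45 | ch45
                          · omega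
                          · omega
                          · omega
                          · omega
                          · omega
                      · skip
                        rcases dh43 with ch43 | ch43 | ch43 | ch43 | ch43 | ch43
                        · omega
                        · omega
                        · omega
                        · skip
                          rcases dh44 with ch44 | ch44 | ch44 | ch44 | ch44
                          · omega
                          · omega
                          · omega
                          · omega
                          · omega
                        · omega
                        · omega
        · skip
          rcases dh25 with ch25 | ch25
          · omega
          · skip
            rcases dh28 with ch28 | ch28
            · skip
              rcases dh31 with ch31 | ch31
              · omega
              · skip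
                rcases dh42 with ch42 | ch42 | ch42 | ch42 | ch42 | ch42
                · omega
                · omega
                · omega
                · omega
                · omega
                · skip
                  rcases dh43 with ch43 | ch43 | ch43 | ch43 | ch43 | ch43
                  · omega
                  · omega
                  · omega
                  · skip
                    rcases dh44 with ch44 | ch44 | ch44 | ch44 | ch44
                    · omega
                    · omega
                    · omega
                    · omega
                    · omega
                  · omega
                  · omega
            · skip
              rcases dh31 with ch31 | ch31
              · omega
              · skip
                rcases dh42 with ch42 | ch42 | ch42 | ch42 | ch42 | ch42
                · omega
                · omega
                · omega
                · omega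
                · omega
                · skip
                  rcases dh43 with ch43 | ch43 | ch43 | ch43 | ch43 | ch43
                  · omega
                  · omega
                  · omega
                  · skip
                    rcases dh44 with ch44 | ch44 | ch44 | ch44 | ch44
                    · omega
                    · omega
                    · omega
                    · omega
                    · omega
                  · omega
                  · omega
    · skip
      rcases dh16 with ch16 | ch16
      · skip
        rcases dh22 with ch22 | ch22
        · skip
          rcases dh25 with ch25 | ch25
          · omega
          · skip
            rcases dh28 with ch28 | ch28
            · skip
              rcases dh31 with ch31 | ch31
              · omega
              · skip
                rcases dh42 with ch42 | ch42 | ch42 | ch42 | ch42 | ch42
                · omega
                · omega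
                · omega
                · omega
                · omega
                · skip
                  rcases dh43 with ch43 | ch43 | ch43 | ch43 | ch43 | ch43
                  · omega
                  · omega
                  · omega
                  · skip
                    rcases dh44 with ch44 | ch44 | ch44 | ch44 | ch44
                    · omega
                    · skip
                      rcases dh35 with ch35 | ch35
                      · skip
                        rcases dh41 with ch41 | ch41
                        · omega
                        · skip
                          rcases dh45 with ch45 | ch45 | ch45 | ch45 | ch45
                          · omega
                          · omega
                          · omega
                          · skip
                            rcases dh47 with ch47 | ch47 | ch47 | ch47 | ch47 | ch47 | ch47 | ch47
                            · omega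
                            · omega
                            · omega
                            · omega
                            · omega
                            · omega
                            · omega
                            · omega
                          · omega
                      · omega
                    · omega
                    · omega
                    · omega
                  · omega
                  · omega
            · skip
              rcases dh31 with ch31 | ch31
              · omega
              · skip
                rcases dh35 with ch35 | ch35
                · skip
                  rcases dh38 with ch38 | ch38
                  · skip
                    rcases dh41 with ch41 | ch41
                    · omega
                    · skip
                      rcases dh42 with ch42 | ch42 | ch42 | ch42 | ch42 | ch42
                      · omega
                      · omega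
                      · omega
                      · skip
                        rcases dh43 with ch43 | ch43 | ch43 | ch43 | ch43 | ch43
                        · omega
                        · omega
                        · omega
                        · omega
                        · omega
                        · skip
                          rcases dh45 with ch45 | ch45 | ch45 | ch45 | ch45
                          · omega
                          · omega
                          · omega
                          · skip
                            rcases dh46 with ch46 | ch46 | ch46 | ch46 | ch46 | ch46
                            · omega
                            · omega
                            · omega
                            · omega
                            · omega
                            · omega
                          · omega
                      · omega
                      · skip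
                        rcases dh43 with ch43 | ch43 | ch43 | ch43 | ch43 | ch43
                        · omega
                        · omega
                        · omega
                        · skip
                          rcases dh44 with ch44 | ch44 | ch44 | ch44 | ch44
                          · omega
                          · skip
                            rcases dh47 with ch47 | ch47 | ch47 | ch47 | ch47 | ch47 | ch47 | ch47
                            · omega
                            · omega
                            · omega
                            · omega
                            · omega
                            · omega
                            · omega
                            · omega
                          · omega
                          · omega
                          · omega
                        · omega
                        · omega
                  · skip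
                    rcases dh41 with ch41 | ch41
                    · omega
                    · skip
                      rcases dh42 with ch42 | ch42 | ch42 | ch42 | ch42 | ch42
                      · omega
                      · omega
                      · omega
                      · skip
                        rcases dh43 with ch43 | ch43 | ch43 | ch43 | ch43 | ch43
                        · omega
                        · omega
                        · omega
                        · omega
                        · omega
                        · skip
                          rcases dh45 with ch45 | ch45 | ch45 | ch45 | ch45
                          · omega
                          · omega
                          · omega
                          · skip
                            rcases dh46 with ch46 | ch46 | ch46 | ch46 | ch46 | ch46
                            · omega
                            · omega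
                            · omega
                            · omega
                            · omega
                            · omega
                          · omega
                      · omega
                      · skip
                        rcases dh43 with ch43 | ch43 | ch43 | ch43 | ch43 | ch43
                        · omega
                        · omega
                        · omega
                        · skip
                          rcases dh44 with ch44 | ch44 | ch44 | ch44 | ch44
                          · omega
                          · skip
                            rcases dh47 with ch47 | ch47 | ch47 | ch47 | ch47 | ch47 | ch47 | ch47
                            · omega
                            · omega
                            · omega
                            · omega
                            · omega
                            · omega
                            · omega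
                            · omega
                          · omega
                          · omega
                          · omega
                        · omega
                        · omega
                · skip
                  rcases dh38 with ch38 | ch38
                  · omega
                  · skip
                    rcases dh41 with ch41 | ch41
                    · omega
                    · skip
                      rcases dh42 with ch42 | ch42 | ch42 | ch42 | ch42 | ch42
                      · omega
                      · omega
                      · omega
                      · skip
                        rcases dh43 with ch43 | ch43 | ch43 | ch43 | ch43 | ch43
                        · omega
                        · omega
                        · omega
                        · omega
                        · omega
                        · skip
                          rcases dh45 with ch45 | ch45 | ch45 | ch45 | ch45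
                          · omega
                          · omega
                          · omega
                          · skip
                            rcases dh46 with ch46 | ch46 | ch46 | ch46 | ch46 | ch46
                            · omega
                            · omega
                            · omega
                            · omega
                            · omega
                            · omega
                          · omega
                      · omega
                      · skip
                        rcases dh43 with ch43 | ch43 | ch43 | ch43 | ch43 | ch43
                        · omega
                        · omega
                        · omega
                        · skip
                          rcases dh44 with ch44 | ch44 | ch44 | ch44 | ch44
                          · omega
                          · omega
                          · omega
                          · omega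
                          · omega
                        · omega
                        · omega
        · skip
          rcases dh25 with ch25 | ch25
          · omega
          · skip
            rcases dh28 with ch28 | ch28
            · skip
              rcases dh31 with ch31 | ch31
              · omega
              · skip
                rcases dh42 with ch42 | ch42 | ch42 | ch42 | ch42 | ch42
                · omega
                · omega
                · omega
                · omega
                · omega
                · skip
                  rcases dh43 with ch43 | ch43 | ch43 | ch43 | ch43 | ch43
                  · omega
                  · omega
                  · omega
                  · skip
                    rcases dh44 with ch44 | ch44 | ch44 | ch44 | ch44
                    · omega
                    · omega
                    · omega
                    · omega
                    · omega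
                  · omega
                  · omega
            · skip
              rcases dh31 with ch31 | ch31
              · omega
              · skip
                rcases dh35 with ch35 | ch35
                · skip
                  rcases dh38 with ch38 | ch38
                  · omega
                  · skip
                    rcases dh41 with ch41 | ch41
                    · omega
                    · skip
                      rcases dh42 with ch42 | ch42 | ch42 | ch42 | ch42 | ch42
                      · omega
                      · omega
                      · omega
                      · skip
                        rcases dh43 with ch43 | ch43 | ch43 | ch43 | ch43 | ch43
                        · omega
                        · omega
                        · omega
                        · omega
                        · omega
                        · skip
                          rcases dh45 with ch45 | ch45 | ch45 | ch45 | ch45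
                          · omega
                          · omega
                          · omega
                          · skip
                            rcases dh46 with ch46 | ch46 | ch46 | ch46 | ch46 | ch46
                            · omega
                            · omega
                            · omega
                            · omega
                            · omega
                            · omega
                          · omega
                      · omega
                      · skip
                        rcases dh43 with ch43 | ch43 | ch43 | ch43 | ch43 | ch43
                        · omega
                        · omega
                        · omega
                        · skip
                          rcases dh44 with ch44 | ch44 | ch44 | ch44 | ch44
                          · omega
                          · omega
                          · omega
                          · omega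
                          · omega
                        · omega
                        · omega
                · skip
                  rcases dh38 with ch38 | ch38
                  · omega
                  · skip
                    rcases dh41 with ch41 | ch41
                    · omega
                    · skip
                      rcases dh42 with ch42 | ch42 | ch42 | ch42 | ch42 | ch42
                      · omega
                      · omega
                      · omega
                      · skip
                        rcases dh43 with ch43 | ch43 | ch43 | ch43 | ch43 | ch43
                        · omega
                        · omega
                        · omega
                        · omega
                        · omega
                        · skip
                          rcases dh45 with ch45 | ch45 | ch45 | ch45 | ch45
                          · omega
                          · omega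
                          · omega
                          · skip
                            rcases dh46 with ch46 | ch46 | ch46 | ch46 | ch46 | ch46
                            · omega
                            · omega
                            · omega
                            · omega
                            · omega
                            · omega
                          · omega
                      · omega
                      · skip
                        rcases dh43 with ch43 | ch43 | ch43 | ch43 | ch43 | ch43
                        · omega
                        · omega
                        · omega
                        · skip
                          rcases dh44 with ch44 | ch44 | ch44 | ch44 | ch44
                          · omega
                          · omega
                          · omega
                          · omega
                          · omega
                        · omega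
                        · omega
      · skip
        rcases dh22 with ch22 | ch22
        · skip
          rcases dh25 with ch25 | ch25
          · omega
          · skip
            rcases dh28 with ch28 | ch28
            · skip
              rcases dh31 with ch31 | ch31
              · omega
              · skip
                rcases dh42 with ch42 | ch42 | ch42 | ch42 | ch42 | ch42
                · omega
                · omega
                · omega
                · omega
                · omega
                · skip
                  rcases dh43 with ch43 | ch43 | ch43 | ch43 | ch43 | ch43
                  · omega
                  · omega
                  · omega
                  · skip
                    rcases dh44 with ch44 | ch44 | ch44 | ch44 | ch44
                    · omega
                    · skip
                      rcases dh35 with ch35 | ch35
                      · skip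
                        rcases dh41 with ch41 | ch41
                        · omega
                        · skip
                          rcases dh45 with ch45 | ch45 | ch45 | ch45 | ch45
                          · omega
                          · omega
                          · omega
                          · skip
                            rcases dh46 with ch46 | ch46 | ch46 | ch46 | ch46 | ch46
                            · skip
                              rcases dh47 with ch47 | ch47 | ch47 | ch47 | ch47 | ch47 | ch47 | ch47
                              · omega
                              · omega
                              · omega
                              · omega
                              · omega
                              · omega
                              · omega
                              · omega
                            · omega
                            · omega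
                            · omega
                            · omega
                            · omega
                          · omega
                      · omega
                    · omega
                    · omega
                    · omega
                  · omega
                  · omega
            · skip
              rcases dh31 with ch31 | ch31
              · omega
              · skip
                rcases dh42 with ch42 | ch42 | ch42 | ch42 | ch42 | ch42
                · omega
                · omega
                · omega
                · omega
                · omega
                · skip
                  rcases dh43 with ch43 | ch43 | ch43 | ch43 | ch43 | ch43
                  · omega
                  · omega
                  · omega
                  · skip
                    rcases dh44 with ch44 | ch44 | ch44 | ch44 | ch44
                    · omega
                    · skip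
                      rcases dh35 with ch35 | ch35
                      · skip
                        rcases dh41 with ch41 | ch41
                        · omega
                        · skip
                          rcases dh46 with ch46 | ch46 | ch46 | ch46 | ch46 | ch46
                          · skip
                            rcases dh47 with ch47 | ch47 | ch47 | ch47 | ch47 | ch47 | ch47 | ch47
                            · omega
                            · omega
                            · omega
                            · omega
                            · omega
                            · omega
                            · omega
                            · omega
                          · omega
                          · omega
                          · omega
                          · omega
                          · omega
                      · omega
                    · omega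
                    · omega
                    · omega
                  · omega
                  · omega
        · skip
          rcases dh25 with ch25 | ch25
          · omega
          · skip
            rcases dh28 with ch28 | ch28
            · skip
              rcases dh31 with ch31 | ch31
              · omega
              · skip
                rcases dh42 with ch42 | ch42 | ch42 | ch42 | ch42 | ch42
                · omega
                · omega
                · omega
                · omega
                · omega
                · skip
                  rcases dh43 with ch43 | ch43 | ch43 | ch43 | ch43 | ch43
                  · omega
                  · omega
                  · omega
                  · skip
                    rcases dh44 with ch44 | ch44 | ch44 | ch44 | ch44
                    · omega
                    · omega
                    · omega
                    · omega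
                    · omega
                  · omega
                  · omega
            · skip
              rcases dh31 with ch31 | ch31
              · omega
              · skip
                rcases dh42 with ch42 | ch42 | ch42 | ch42 | ch42 | ch42
                · omega
                · omega
                · omega
                · omega
                · omega
                · skip
                  rcases dh43 with ch43 | ch43 | ch43 | ch43 | ch43 | ch43
                  · omega
                  · omega
                  · omega
                  · skip
                    rcases dh44 with ch44 | ch44 | ch44 | ch44 | ch44
                    · omega
                    · omega
                    · omega
                    · omega
                    · omega
                  · omega
                  · omega
  · omega

end Pool.Agent.Helper9.TQ
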